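import Mathlib
import Pool.Agent.Lib.MP_8870f3_co.Lower
import Pool.Agent.Lib.MP_8870f3_co.General

set_option autoImplicit false

open Pool.Agent.Lib.MP_8870f3_co in
/-- For every `t ≥ 3` the set `A_t` is the open ray above `1 - 1 / (2 (t - 1))`. -/
theorem Pool.Agent.Results.MP_8870f3_co.Full.result (t : ℕ) (ht : 3 ≤ t) :
    goodSet t = Set.Ioi (1 - 1 / (2 * ((t : ℝ) - 1))) :=
  goodSet_eq (by omega) (lineDual t (by omega))
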