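import Mathlib
import Pool.Agent.Lib.MP_8870f3_co.Lower
import Pool.Agent.FS.OneClique.Line

/-!
The exact minimum degree that forces one clique of order `t` in a subgraph of a cycle power.
-/

set_option autoImplicit false

namespace Pool.Agent.Results.MP_8870f3_co.OneClique

open Finset Pool.Agent.Lib.MP_8870f3_co Pool.Agent.FS.OneClique

theorem result (t k μ : ℕ) (ht : 3 ≤ t) :
    (∀ n : ℕ, 2 * k + 1 ≤ n → ∀ H : SimpleGraph (ZMod n), H ≤ cyclePower n k →
      (∀ v : ZMod n, 2 * k ≤ (H.neighborSet v).ncard + μ) →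
      ∃ T : Finset (ZMod n), H.IsNClique t T) ↔ (t - 2) * (μ + 1) < k := by
  classical
  obtain ⟨j, rfl⟩ : ∃ j, t = j + 1 + 2 := ⟨t - 3, by omega⟩
  rw [Nat.add_sub_cancel]
  constructor
  · intro h
    by_contra hk
    have h3 : 3 * k < (μ + 1) * (3 * k + 1) := by nlinarith
    have h4 : 2 * k + 1 ≤ (μ + 1) * (3 * k + 1) := by omega
    haveI : NeZero ((μ + 1) * (3 * k + 1)) := ⟨by omega⟩
    obtain ⟨T, hT⟩ := h _ h4 (clusterGraph _ k (μ + 1) (μ + 1)) (fun x y h => h.1) (fun v => by
      by_cases h5 : 2 * k ≤ μ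
      · omega
      have hk0 : (0 : ℝ) < 2 * k := by exact_mod_cast (by omega : 0 < 2 * k)
      have hμ : (μ : ℝ) ≤ 2 * k := by exact_mod_cast (by omega : μ ≤ 2 * k)
      have e : (μ : ℝ) / (2 * k) * (2 * k) = μ := div_mul_cancel₀ _ hk0.ne'
      have h0 : (0 : ℝ) ≤ μ / (2 * k) := by positivity
      have h1 : (μ : ℝ) / (2 * k) ≤ 1 := (div_le_one hk0).2 hμ
      have h6 := (cluster_alpha (P := μ + 1) (m := μ + 1) h4 (1 - μ / (2 * k)) (by linarith)
        (by push_cast; nlinarith)).2 v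
      have h7 : (2 * k : ℝ) ≤ (((cyclePower _ k).neighborSet v).ncard : ℝ) := by
        rw [ncard_nbr]
        exact_mod_cast deg_ge_two_mul _ k h4 v
      have h8 := mul_le_mul_of_nonneg_left h7 (by linarith : (0 : ℝ) ≤ 1 - μ / (2 * k))
      have h9 : (2 * k : ℝ) ≤
          (((clusterGraph _ k (μ + 1) (μ + 1)).neighborSet v).ncard : ℝ) + μ := by nlinarith
      exact_mod_cast h9)
    obtain ⟨x, -, hx⟩ := cluster_clique (s := j + 2) rfl h3 (by nlinarith) T hT
    exact absurd (Nat.mod_lt x.val (Nat.succ_pos μ)) (not_lt.2 hx)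
  · intro hk n hn H hH hdeg
    have hc : ∀ x : ℤ, ((Icc (x - k) (x + k)).filter
        fun y : ℤ => ¬ H.Adj (x : ZMod n) (y : ZMod n)).card ≤ μ + 1 := fun x => by
      have h1 := card_filter_add_card_filter_not (s := Icc (x - k) (x + k))
        fun y : ℤ => H.Adj (x : ZMod n) (y : ZMod n)
      have h2 : H.neighborSet (x : ZMod n) ⊆ (((Icc (x - k) (x + k)).filter
          fun y : ℤ => H.Adj (x : ZMod n) (y : ZMod n)).image fun y : ℤ => (y : ZMod n) :
            Finset (ZMod n)) := by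
        intro u hu
        have hu' : H.Adj (x : ZMod n) u := hu
        obtain ⟨-, d, -, h3, h4 | h4⟩ := hH hu'
        · have e : ((x + d : ℤ) : ZMod n) = u := by push_cast; rw [← h4]; ring
          exact mem_coe.2 (mem_image.2 ⟨x + d,
            mem_filter.2 ⟨mem_Icc.2 ⟨by omega, by omega⟩, by rw [e]; exact hu'⟩, e⟩)
        · have e : ((x - d : ℤ) : ZMod n) = u := by
            push_cast; rw [sub_eq_add_neg, ← h4]; ring
          exact mem_coe.2 (mem_image.2 ⟨x - d,
            mem_filter.2 ⟨mem_Icc.2 ⟨by omega, by omega⟩, by rw [e]; exact hu'⟩, e⟩)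
      have h3 := Set.ncard_le_ncard h2 (Finset.finite_toSet _)
      rw [Set.ncard_coe_finset] at h3
      have h4 := h3.trans card_image_le
      have h5 := hdeg (x : ZMod n)
      rw [Int.card_Icc] at h1
      omega
    obtain ⟨a, T, hT, hA, -⟩ := cq_all (A := fun x y : ℤ => H.Adj (x : ZMod n) (y : ZMod n))
      (k := k) (c := μ + 1) (fun _ _ h => h.symm) (fun _ h => h.ne rfl)
      (fun x => by convert hc x) (by nlinarith) (j + 1) hk
    refine ⟨T.image fun y : ℤ => (y : ZMod n), ?_, ?_⟩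
    · intro u hu v hv huv
      obtain ⟨x, hx, rfl⟩ := mem_image.1 (mem_coe.1 hu)
      obtain ⟨y, hy, rfl⟩ := mem_image.1 (mem_coe.1 hv)
      exact hA x hx y hy fun h => huv (by rw [h])
    · rw [card_image_of_injOn, hT]
      intro x hx y hy h
      by_contra hne
      exact (hA x hx y hy hne).ne h

end Pool.Agent.Results.MP_8870f3_co.OneClique
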